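import Pool.Agent.H95.AD.TargetsU

/-!
# Differences of the cut-off function (row BVD of the board adu_modules)
-/

set_option autoImplicit false

open MeasureTheory Set Filter
open scoped Real

namespace Pool.Agent.H19.ADU

open Pool.Agent.H31.CN Pool.Agent.H95.AD

lemma quo_ge {c Y D : ℝ} (hc : 0 < c) (hY : 0 < Y) (hD : 0 < D) (h : D ≤ 2 * Y) :
    7 / 10 * (c / Real.sqrt Y) ≤ c / Real.sqrt D := by
  have h1 : 0 < Real.sqrt Y := Real.sqrt_pos.2 hY
  have h2 : 0 < Real.sqrt D := Real.sqrt_pos.2 hD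
  have h3 : Real.sqrt D ≤ 10 / 7 * Real.sqrt Y := by
    rw [Real.sqrt_le_left (by positivity), mul_pow, Real.sq_sqrt hY.le]
    nlinarith
  rw [le_div_iff₀ h2]
  calc 7 / 10 * (c / Real.sqrt Y) * Real.sqrt D
      ≤ 7 / 10 * (c / Real.sqrt Y) * (10 / 7 * Real.sqrt Y) :=
        mul_le_mul_of_nonneg_left h3 (by positivity)
    _ = c := by
        field_simp

lemma exp_bd {x z : ℝ} (h : 7 / 10 * x ≤ z) : Real.exp (-(6 * z)) ≤ Real.exp (-(21 / 5 * x)) :=
  Real.exp_le_exp.2 (by linarith)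

theorem pf_BVD (hVK : T_VK) : T_BVD := by
  obtain ⟨C, hC, h1, -, h3, -⟩ := hVK
  refine ⟨5 * C, by positivity, ?_⟩
  intro c Y D hc hY hYD hD
  have hY' : (0 : ℝ) < Y := by exact_mod_cast hY
  have hD' : (0 : ℝ) < D := lt_of_lt_of_le hY' (by exact_mod_cast hYD)
  have hYD' : (Y : ℝ) ≤ D := by exact_mod_cast hYD
  have hsY : 0 < Real.sqrt Y := Real.sqrt_pos.2 hY'
  set x : ℝ := c / Real.sqrt Y with hx
  have hxp : 0 < x := by positivity
  have h4 : Real.exp (-(21 / 5 * x)) ≤ Real.exp (-(4 * x)) :=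
    Real.exp_le_exp.2 (by linarith)
  constructor
  · have hz : 7 / 10 * x ≤ c / Real.sqrt D := quo_ge hc hY' hD' (by exact_mod_cast hD)
    have hzp : 0 < c / Real.sqrt D := by
      have := Real.sqrt_pos.2 hD'
      positivity
    calc |Vk (c / Real.sqrt D)| ≤ C * Real.exp (-(6 * (c / Real.sqrt D))) := h1 _ hzp
      _ ≤ C * Real.exp (-(4 * x)) :=
          mul_le_mul_of_nonneg_left ((exp_bd hz).trans h4) hC.le
      _ ≤ 5 * C * Real.exp (-(4 * x)) := by
          have := Real.exp_pos (-(4 * x))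
          nlinarith
  · intro hlt
    have hD1 : (0 : ℝ) < (D : ℝ) + 1 := by positivity
    have hs : 0 < Real.sqrt D := Real.sqrt_pos.2 hD'
    have hs1 : 0 < Real.sqrt ((D : ℝ) + 1) := Real.sqrt_pos.2 hD1
    have hz : 7 / 10 * x ≤ c / Real.sqrt ((D : ℝ) + 1) :=
      quo_ge hc hY' hD1 (by exact_mod_cast hlt)
    have hle : c / Real.sqrt ((D : ℝ) + 1) ≤ c / Real.sqrt D :=
      div_le_div_of_nonneg_left hc.le hs (Real.sqrt_le_sqrt (by linarith))
    have hmv := Convex.norm_image_sub_le_of_norm_deriv_le (f := Vk)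
      (C := C * Real.exp (-(21 / 5 * x))) (s := Icc (c / Real.sqrt ((D : ℝ) + 1))
        (c / Real.sqrt D)) (x := c / Real.sqrt D) (y := c / Real.sqrt ((D : ℝ) + 1))
      (fun z hz' => (h3 z (by linarith [hz'.1])).1)
      (fun z hz' => by
        rw [Real.norm_eq_abs]
        exact ((h3 z (by linarith [hz'.1])).2).trans
          (mul_le_mul_of_nonneg_left (exp_bd (by linarith [hz'.1])) hC.le))
      (convex_Icc _ _) ⟨hle, le_rfl⟩ ⟨le_rfl, hle⟩
    rw [Real.norm_eq_abs, Real.norm_eq_abs] at hmv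
    have hdiff : |c / Real.sqrt ((D : ℝ) + 1) - c / Real.sqrt D| ≤ x / Y := by
      rw [abs_sub_comm, abs_of_nonneg (by linarith)]
      have e : c / Real.sqrt D - c / Real.sqrt ((D : ℝ) + 1) =
          c / (Real.sqrt D * Real.sqrt ((D : ℝ) + 1) *
            (Real.sqrt D + Real.sqrt ((D : ℝ) + 1))) := by
        have e1 : (Real.sqrt ((D : ℝ) + 1) - Real.sqrt D) *
            (Real.sqrt D + Real.sqrt ((D : ℝ) + 1)) = 1 := by
          have e2 := Real.sq_sqrt hD'.le
          have e3 := Real.sq_sqrt hD1.le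
          nlinarith
        field_simp
        linarith
      rw [e, hx, div_div]
      refine div_le_div_of_nonneg_left hc.le (by positivity) ?_
      have e4 : Real.sqrt Y ≤ Real.sqrt D := Real.sqrt_le_sqrt hYD'
      have e5 : Real.sqrt D ≤ Real.sqrt ((D : ℝ) + 1) := Real.sqrt_le_sqrt (by linarith)
      have e6 : (Y : ℝ) = Real.sqrt Y * Real.sqrt Y := (Real.mul_self_sqrt hY'.le).symm
      calc Real.sqrt Y * Y = (Real.sqrt Y * Real.sqrt Y) * Real.sqrt Y := by
            rw [← e6, mul_comm]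
        _ ≤ (Real.sqrt D * Real.sqrt ((D : ℝ) + 1)) *
            (Real.sqrt D + Real.sqrt ((D : ℝ) + 1)) :=
          mul_le_mul (mul_le_mul e4 (e4.trans e5) hsY.le hs.le) (by linarith) hsY.le
            (by positivity)
    have hxe : x * Real.exp (-(21 / 5 * x)) ≤ 5 * Real.exp (-(4 * x)) := by
      have e1 : x / 5 ≤ Real.exp (x / 5) := by linarith [Real.add_one_le_exp (x / 5)]
      have e2 : Real.exp (-(4 * x)) = Real.exp (x / 5) * Real.exp (-(21 / 5 * x)) := by
        rw [← Real.exp_add]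
        congr 1
        ring
      rw [e2]
      have := Real.exp_pos (-(21 / 5 * x))
      nlinarith
    calc |Vk (c / Real.sqrt ((D : ℝ) + 1)) - Vk (c / Real.sqrt D)|
        ≤ C * Real.exp (-(21 / 5 * x)) *
          |c / Real.sqrt ((D : ℝ) + 1) - c / Real.sqrt D| := hmv
      _ ≤ C * Real.exp (-(21 / 5 * x)) * (x / Y) :=
          mul_le_mul_of_nonneg_left hdiff (by positivity)
      _ = C / Y * (x * Real.exp (-(21 / 5 * x))) := by ring
      _ ≤ C / Y * (5 * Real.exp (-(4 * x))) := mul_le_mul_of_nonneg_left hxe (by positivity)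
      _ = 5 * C / Y * Real.exp (-(4 * x)) := by ring

end Pool.Agent.H19.ADU
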