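import Pool.Agent.H25.AD.GAU

/-!
# The mean square of the coefficients (row CKS of the board adu_modules)
-/

set_option autoImplicit false

open MeasureTheory Set Filter
open scoped Real

namespace Pool.Agent.H19.ADU

open Pool.Agent.H31.CN Pool.Agent.H95.AD Pool.Agent.H25.AD

lemma ck_eq (A k : ℕ) (α : ℕ → ℝ) (hα : Summable (fun n : ℕ => |α n|)) :
    ck α A k = 1 / (4 * (A : ℂ)) * ∑ B ∈ Finset.range (2 * A),
      (∑' n : ℕ, (α n : ℂ) * ee ((n : ℝ) * B / (2 * A))) *
        ee ((k : ℝ) * (B : ℝ) ^ 2 / (4 * A)) := by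
  unfold ck
  congr 1
  have hs : ∀ B ∈ Finset.range (2 * A), Summable (fun n : ℕ =>
      (α n : ℂ) * ee ((n : ℝ) * B / (2 * A) + (k : ℝ) * (B : ℝ) ^ 2 / (4 * A))) := by
    intro B _
    refine Summable.of_norm ?_
    refine hα.congr fun n => ?_
    rw [norm_mul, norm_ee, mul_one, Complex.norm_real, Real.norm_eq_abs]
  have h1 : ∀ n : ℕ, (α n : ℂ) * gs n A k = ∑ B ∈ Finset.range (2 * A),
      (α n : ℂ) * ee ((n : ℝ) * B / (2 * A) + (k : ℝ) * (B : ℝ) ^ 2 / (4 * A)) := by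
    intro n
    unfold gs
    rw [Finset.mul_sum]
  rw [tsum_congr h1, Summable.tsum_finsetSum hs]
  refine Finset.sum_congr rfl fun B _ => ?_
  rw [← tsum_mul_right]
  refine tsum_congr fun n => ?_
  rw [ee_add, mul_assoc]

/-- The multiples of a divisor. -/
lemma sum_mul (n g : ℕ) (hg : 0 < g) (hd : g ∣ n) (f : ℕ → ℝ) :
    ∑ B ∈ (Finset.range n).filter (fun B => g ∣ B), f B =
      ∑ B ∈ Finset.range (n / g), f (g * B) := by
  symm
  refine Finset.sum_bij (fun B _ => g * B) ?_ ?_ ?_ ?_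
  · intro B hB
    rw [Finset.mem_range] at hB
    rw [Finset.mem_filter, Finset.mem_range]
    refine ⟨?_, dvd_mul_right _ _⟩
    calc g * B < g * (n / g) := Nat.mul_lt_mul_of_pos_left hB hg
      _ = n := Nat.mul_div_cancel' hd
  · intro x _ y _ hxy
    exact Nat.eq_of_mul_eq_mul_left hg hxy
  · intro B hB
    rw [Finset.mem_filter, Finset.mem_range] at hB
    obtain ⟨x, hx⟩ := hB.2
    refine ⟨x, ?_, hx.symm⟩
    rw [Finset.mem_range]
    have h1 : g * x < g * (n / g) := by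
      rw [Nat.mul_div_cancel' hd, ← hx]
      exact hB.1
    exact lt_of_mul_lt_mul_left h1 (Nat.zero_le _)
  · intro B _
    rfl

theorem pf_CKS (hPSV : T_PSV) (hPGB : T_PGB) : T_CKS := by
  intro A κ α hA hκ hsum
  have hA' : (0 : ℝ) < A := by exact_mod_cast hA
  have hα := (hPGB 1 κ α le_rfl hκ hsum).1
  set S : ℝ := ∑' n : ℕ, α n ^ 2 * Real.exp (κ * n) with hS
  have hS0 : 0 ≤ S := tsum_nonneg fun n => by positivity
  set φ : ℕ → ℂ := fun B => ∑' n : ℕ, (α n : ℂ) * ee ((n : ℝ) * B / (2 * A)) with hφ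
  have h1 : ∀ k : ℕ, ‖ck α A k‖ ^ 2 = (1 / (4 * A)) ^ 2 *
      ‖∑ B ∈ Finset.range (2 * A), φ B * ee ((k : ℝ) * (B : ℝ) ^ 2 / (4 * A))‖ ^ 2 := by
    intro k
    rw [ck_eq A k α hα, norm_mul, mul_pow]
    congr 2
    rw [norm_div, norm_mul, norm_one, Complex.norm_natCast]
    simp
  rw [Finset.sum_congr rfl fun k _ => h1 k, ← Finset.mul_sum]
  have h2 := hPSV A φ hA
  have h3 : ∀ d ∈ A.divisors, (Nat.gcd d (A / d) : ℝ) *
        ∑ B ∈ (Finset.range (2 * A)).filter (fun B => Nat.gcd d (A / d) ∣ B), ‖φ B‖ ^ 2 ≤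
      2 * A * ((1 + 1 / (κ * Real.sqrt A)) * S) := by
    intro d hd
    have hdA : d ∣ A := Nat.dvd_of_mem_divisors hd
    have hdp : 0 < d := Nat.pos_of_dvd_of_pos hdA hA
    set g := Nat.gcd d (A / d) with hg
    have hgp : 0 < g := Nat.gcd_pos_of_pos_left _ hdp
    have hg2 : g * g ∣ A := by
      have := mul_dvd_mul (Nat.gcd_dvd_left d (A / d)) (Nat.gcd_dvd_right d (A / d))
      rwa [Nat.mul_div_cancel' hdA] at this
    have hg2A : g ∣ 2 * A := dvd_trans (dvd_trans (dvd_mul_right g g) hg2) (dvd_mul_left A 2)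
    rw [sum_mul (2 * A) g hgp hg2A]
    set q := 2 * A / g with hq
    have hgq : g * q = 2 * A := Nat.mul_div_cancel' hg2A
    have hqp : 1 ≤ q := by
      rcases Nat.eq_zero_or_pos q with h | h
      · rw [h] at hgq
        omega
      · exact h
    have h4 := (hPGB q κ α hqp hκ hsum).2
    have hgq' : (g : ℝ) * q = 2 * A := by exact_mod_cast hgq
    have hg' : (0 : ℝ) < g := by exact_mod_cast hgp
    have hq' : (0 : ℝ) < q := by exact_mod_cast hqp
    have h5 : ∀ B ∈ Finset.range q, ‖φ (g * B)‖ ^ 2 =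
        ‖∑' n : ℕ, (α n : ℂ) * ee ((n : ℝ) * B / q)‖ ^ 2 := by
      intro B _
      rw [hφ]
      simp only
      congr 2
      refine tsum_congr fun n => ?_
      congr 2
      rw [← hgq']
      push_cast
      field_simp
    rw [Finset.sum_congr rfl h5]
    have h6 : Real.sqrt A ≤ q := by
      have h7 : g * g ≤ A := Nat.le_of_dvd hA hg2
      have h8 : (g : ℝ) * g ≤ A := by exact_mod_cast h7
      rw [Real.sqrt_le_left hq'.le]
      have h9 : (g : ℝ) * g * (A * 4) ≤ (g * q) * (g * q) := by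
        rw [hgq']
        nlinarith
      have h10 : (g : ℝ) * g * (A * 4) ≤ g * g * (q ^ 2) := by nlinarith
      have h11 : (A : ℝ) * 4 ≤ q ^ 2 := le_of_mul_le_mul_left h10 (by positivity)
      linarith
    have h7 : 1 / (κ * q) ≤ 1 / (κ * Real.sqrt A) := by
      have : 0 < Real.sqrt A := Real.sqrt_pos.2 hA'
      exact one_div_le_one_div_of_le (by positivity) (mul_le_mul_of_nonneg_left h6 hκ.le)
    calc (g : ℝ) * ∑ B ∈ Finset.range q, ‖∑' n : ℕ, (α n : ℂ) * ee ((n : ℝ) * B / q)‖ ^ 2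
        ≤ g * (q * (1 + 1 / (κ * q)) * S) := mul_le_mul_of_nonneg_left h4 hg'.le
      _ = 2 * A * ((1 + 1 / (κ * q)) * S) := by rw [← hgq']; ring
      _ ≤ 2 * A * ((1 + 1 / (κ * Real.sqrt A)) * S) :=
          mul_le_mul_of_nonneg_left (mul_le_mul_of_nonneg_right (by linarith) hS0)
            (by positivity)
  have h4 := Finset.sum_le_sum h3
  rw [Finset.sum_const, nsmul_eq_mul] at h4
  have h5 : 0 ≤ (1 + 1 / (κ * Real.sqrt A)) * S := by positivity
  have h6 : 0 ≤ tau A := by unfold tau; positivity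
  calc (1 / (4 * (A : ℝ))) ^ 2 * ∑ k ∈ Finset.range (4 * A),
        ‖∑ B ∈ Finset.range (2 * A), φ B * ee ((k : ℝ) * (B : ℝ) ^ 2 / (4 * A))‖ ^ 2
      ≤ (1 / (4 * (A : ℝ))) ^ 2 * (4 * A * (A.divisors.card *
          (2 * A * ((1 + 1 / (κ * Real.sqrt A)) * S)))) := by
        refine mul_le_mul_of_nonneg_left (h2.trans ?_) (by positivity)
        exact mul_le_mul_of_nonneg_left h4 (by positivity)
    _ = 1 / 2 * (tau A * ((1 + 1 / (κ * Real.sqrt A)) * S)) := by
        unfold tau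
        field_simp
        ring
    _ ≤ tau A * (1 + 1 / (κ * Real.sqrt A)) * S := by
        have := mul_nonneg h6 h5
        nlinarith

end Pool.Agent.H19.ADU
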