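import Pool.Agent.H25.AD.GAU

/-!
# The decomposition into blocks (row DEC of the board adu_modules)
-/

set_option autoImplicit false

open MeasureTheory Set Filter
open scoped Real

namespace Pool.Agent.H19.ADU

open Pool.Agent.H31.CN Pool.Agent.H95.AD Pool.Agent.H25.AD

lemma rs_le (n A D : ℕ) : ‖rs n A D‖ ≤ 2 * A := by
  unfold rs
  refine (norm_sum_le _ _).trans ?_
  rw [Finset.sum_congr rfl fun B _ => norm_ee _, Finset.sum_const, nsmul_eq_mul, mul_one]
  have := Finset.card_filter_le (Finset.range (2 * A)) (fun B => 4 * A ∣ B ^ 2 + D)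
  rw [Finset.card_range] at this
  exact_mod_cast this

lemma gs_le (n A k : ℕ) : ‖gs n A k‖ ≤ 2 * A := by
  unfold gs
  refine (norm_sum_le _ _).trans ?_
  rw [Finset.sum_congr rfl fun B _ => norm_ee _, Finset.sum_const, nsmul_eq_mul, mul_one,
    Finset.card_range]
  push_cast
  exact le_rfl

/-- A crude bound for the coefficients. -/
lemma beta_le {a e m Y : ℕ} {K : ℝ} {β : ℕ → ℕ → ℝ} (he : 1 ≤ e) (hY : 1 ≤ Y)
    (hK : 0 ≤ K) (h : CB K a e m Y β) (A n : ℕ) :
    2 * (A : ℝ) * |β A n| ≤ 12 * K * ((A : ℝ) ^ 4 *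
      Real.exp (-((e : ℝ) ^ 2 / (m * Real.sqrt Y)) * A)) * (1 / (n : ℝ) ^ 2) := by
  by_cases hc : 1 ≤ A ∧ 1 ≤ n ∧ a ∣ A
  · obtain ⟨hA, hn, -⟩ := hc
    have hA' : (1 : ℝ) ≤ A := by exact_mod_cast hA
    have hn' : (1 : ℝ) ≤ n := by exact_mod_cast hn
    have he' : (1 : ℝ) ≤ e := by exact_mod_cast he
    have hY' : (1 : ℝ) ≤ Y := by exact_mod_cast hY
    have hsY : 1 ≤ Real.sqrt Y := by
      rw [show (1 : ℝ) = Real.sqrt 1 by simp]
      exact Real.sqrt_le_sqrt hY'
    have hA0 : (0 : ℝ) < A := by linarith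
    have hn0 : (0 : ℝ) < n := by linarith
    have h1 := h.2 A n hA hn
    have htau : tau n ≤ n := by
      unfold tau
      exact_mod_cast Nat.card_divisors_le_self n
    have htau0 : 0 ≤ tau n := by unfold tau; positivity
    have h2 : tau n / ((e : ℝ) * A) ≤ n / A := by
      rw [div_le_div_iff₀ (by positivity) hA0]
      nlinarith [mul_nonneg htau0 hA0.le, mul_le_mul_of_nonneg_right htau hA0.le,
        mul_nonneg (mul_nonneg hn0.le hA0.le) (by linarith : (0 : ℝ) ≤ e - 1)]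
    have h3 : Real.sqrt ((A : ℝ) / (n * Real.sqrt Y)) ≤ A := by
      rw [Real.sqrt_le_left hA0.le, div_le_iff₀ (by positivity)]
      nlinarith [mul_le_mul hn' hsY (by norm_num) hn0.le, mul_pos hA0 hA0]
    have h4 : Real.exp (-((n : ℝ) * Real.sqrt Y / A)) ≤ 6 * (A : ℝ) ^ 3 / (n : ℝ) ^ 3 := by
      have h5 : Real.exp (-((n : ℝ) * Real.sqrt Y / A)) ≤ Real.exp (-((n : ℝ) / A)) := by
        refine Real.exp_le_exp.2 (neg_le_neg ?_)
        refine div_le_div_of_nonneg_right ?_ hA0.le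
        nlinarith
      refine h5.trans ?_
      have h6 : ((n : ℝ) / A) ^ 3 / 6 ≤ Real.exp ((n : ℝ) / A) := by
        have h7 := Real.sum_le_exp_of_nonneg (show 0 ≤ (n : ℝ) / A by positivity) 4
        have h8 : ((n : ℝ) / A) ^ 3 / 6 ≤ ∑ i ∈ Finset.range 4, ((n : ℝ) / A) ^ i / (i.factorial : ℝ) := by
          have h9 : ((n : ℝ) / A) ^ 3 / 6 = ((n : ℝ) / A) ^ 3 / ((3 : ℕ).factorial : ℝ) := by
            norm_num [Nat.factorial]
          rw [h9]
          exact Finset.single_le_sum (f := fun i => ((n : ℝ) / A) ^ i / (i.factorial : ℝ))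
            (fun i _ => by positivity) (by simp : 3 ∈ Finset.range 4)
        exact h8.trans h7
      rw [Real.exp_neg, inv_eq_one_div, div_le_div_iff₀ (Real.exp_pos _) (by positivity)]
      have h10 : ((n : ℝ) / A) ^ 3 / 6 * (6 * (A : ℝ) ^ 3) = (n : ℝ) ^ 3 := by
        field_simp
      nlinarith [mul_le_mul_of_nonneg_right h6 (show 0 ≤ 6 * (A : ℝ) ^ 3 by positivity)]
    have h5 : Real.exp (-((e : ℝ) ^ 2 * A / (m * Real.sqrt Y))) =
        Real.exp (-((e : ℝ) ^ 2 / (m * Real.sqrt Y)) * A) := by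
      congr 1
      ring
    rw [h5] at h1
    set E := Real.exp (-((e : ℝ) ^ 2 / (m * Real.sqrt Y)) * A) with hE
    have hE0 : 0 < E := Real.exp_pos _
    calc 2 * (A : ℝ) * |β A n| ≤ 2 * A * (K * (n / A) * A * (6 * (A : ℝ) ^ 3 / (n : ℝ) ^ 3) * E) := by
          refine mul_le_mul_of_nonneg_left (h1.trans ?_) (by positivity)
          refine mul_le_mul_of_nonneg_right ?_ hE0.le
          refine mul_le_mul ?_ h4 (Real.exp_pos _).le (by positivity)
          exact mul_le_mul (mul_le_mul_of_nonneg_left h2 hK) h3 (Real.sqrt_nonneg _) (by positivity)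
      _ = 12 * K * ((A : ℝ) ^ 4 * E) * (1 / (n : ℝ) ^ 2) := by
          field_simp
          ring
  · rw [h.1 A n hc, abs_zero, mul_zero]
    positivity

lemma summ_bd {e m Y : ℕ} (K : ℝ) (he : 1 ≤ e) (hm : 1 ≤ m) (hY : 1 ≤ Y) :
    Summable (fun i : ℕ × ℕ => 12 * K * ((i.1 : ℝ) ^ 4 *
      Real.exp (-((e : ℝ) ^ 2 / (m * Real.sqrt Y)) * i.1)) * (1 / (i.2 : ℝ) ^ 2)) := by
  have he' : (0 : ℝ) < e := by exact_mod_cast he
  have hm' : (0 : ℝ) < m := by exact_mod_cast hm
  have hY' : 0 < Real.sqrt Y := Real.sqrt_pos.2 (by exact_mod_cast hY)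
  have h1 : Summable (fun A : ℕ => (A : ℝ) ^ 4 *
      Real.exp (-((e : ℝ) ^ 2 / (m * Real.sqrt Y)) * A)) :=
    Real.summable_pow_mul_exp_neg_nat_mul 4 (by positivity)
  have h2 : Summable (fun n : ℕ => 1 / (n : ℝ) ^ 2) :=
    Real.summable_one_div_nat_pow.2 (by norm_num)
  have h3 := (h1.mul_of_nonneg h2 (fun A => by positivity) (fun n => by positivity)).mul_left
    (12 * K)
  refine h3.congr fun i => ?_
  ring

theorem pf_DEC (hORT : T_ORT) : T_DEC := by
  intro a e m Y K β ha he hm hY hK hCB D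
  have hbd := summ_bd K he hm hY
  have hS : Summable (fun i : ℕ × ℕ => ‖(β i.1 i.2 : ℂ) * rs i.2 i.1 D‖) := by
    refine Summable.of_nonneg_of_le (fun i => norm_nonneg _) (fun i => ?_) hbd
    refine le_trans ?_ (beta_le he hY hK hCB i.1 i.2)
    rw [norm_mul, Complex.norm_real, Real.norm_eq_abs, mul_comm]
    exact mul_le_mul_of_nonneg_right (rs_le _ _ _) (abs_nonneg _)
  refine ⟨hS, fun hF => ?_⟩
  have hS' : Summable (fun i : ℕ × ℕ => (β i.1 i.2 : ℂ) * rs i.2 i.1 D) := hS.of_norm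
  have hF' : Summable (fun x : ℕ × ℕ => Fb β a x.1 x.2 D) := hF.of_norm
  set G : ℕ → ℂ := fun A => ∑' n : ℕ, (β A n : ℂ) * rs n A D with hG
  have hGs : HasSum G (∑' i : ℕ × ℕ, (β i.1 i.2 : ℂ) * rs i.2 i.1 D) := by
    have h1 := hS'.prod.hasSum
    rw [← hS'.tsum_prod] at h1
    exact h1
  -- the value of `G`
  have hG1 : ∀ A : ℕ, 1 ≤ A → a ∣ A → G A = ∑ k ∈ Finset.range (4 * A),
      ck (β A) A k * ee ((k : ℝ) * D / (4 * A)) := by
    intro A hA haA
    have hsA : ∀ k : ℕ, Summable (fun n : ℕ => (β A n : ℂ) * gs n A k) := by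
      intro k
      refine Summable.of_norm ?_
      have h1 : Summable (fun n : ℕ => 12 * K * ((A : ℝ) ^ 4 *
          Real.exp (-((e : ℝ) ^ 2 / (m * Real.sqrt Y)) * A)) * (1 / (n : ℝ) ^ 2)) :=
        hbd.prod_factor A
      refine Summable.of_nonneg_of_le (fun n => norm_nonneg _) (fun n => ?_) h1
      refine le_trans ?_ (beta_le he hY hK hCB A n)
      rw [norm_mul, Complex.norm_real, Real.norm_eq_abs, mul_comm]
      exact mul_le_mul_of_nonneg_right (gs_le _ _ _) (abs_nonneg _)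
    have h2 : ∀ n : ℕ, (β A n : ℂ) * rs n A D = ∑ k ∈ Finset.range (4 * A),
        (1 / (4 * (A : ℂ)) * ee ((k : ℝ) * D / (4 * A))) * ((β A n : ℂ) * gs n A k) := by
      intro n
      rw [hORT n A D hA, Finset.mul_sum, Finset.mul_sum]
      refine Finset.sum_congr rfl fun k _ => ?_
      ring
    rw [hG]
    simp only
    rw [tsum_congr h2, Summable.tsum_finsetSum fun k _ => (hsA k).mul_left _]
    refine Finset.sum_congr rfl fun k _ => ?_
    rw [tsum_mul_left]
    unfold ck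
    ring
  have hG0 : ∀ A : ℕ, ¬ (1 ≤ A ∧ a ∣ A) → G A = 0 := by
    intro A hA
    rw [hG]
    simp only
    have h1 : ∀ n : ℕ, (β A n : ℂ) * rs n A D = 0 := by
      intro n
      rw [hCB.1 A n (fun h => hA ⟨h.1, h.2.2⟩)]
      simp
    rw [tsum_congr h1, tsum_zero]
  -- blocks
  have hH : ∀ j : ℕ, ∑' d : ℕ, Fb β a j d D =
      ∑ A ∈ Finset.Ico (2 ^ j) (2 ^ (j + 1)), G A := by
    intro j
    have h1 : ∀ d ∉ Finset.range (2 ^ (j + 1)), Fb β a j d D = 0 := by
      intro d hd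
      rw [Finset.mem_range, not_lt] at hd
      unfold Fb
      refine Finset.sum_eq_zero fun A hA => ?_
      rw [Finset.mem_filter, Finset.mem_Ico] at hA
      refine Finset.sum_eq_zero fun k hk => ?_
      exfalso
      rw [Finset.mem_filter] at hk
      have hApos : 0 < A := lt_of_lt_of_le (by positivity) hA.1.1
      have := Nat.le_of_dvd hApos (Nat.gcd_dvd_right k A)
      rw [hk.2] at this
      omega
    rw [tsum_eq_sum h1]
    unfold Fb
    rw [Finset.sum_comm, Finset.sum_filter]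
    refine Finset.sum_congr rfl fun A hA => ?_
    rw [Finset.mem_Ico] at hA
    have hApos : 1 ≤ A := le_trans (Nat.one_le_two_pow) hA.1
    split_ifs with haA
    · rw [hG1 A hApos haA]
      have h2 : ∀ k ∈ Finset.range (4 * A), Nat.gcd k A ∈ Finset.range (2 ^ (j + 1)) := by
        intro k _
        rw [Finset.mem_range]
        exact lt_of_le_of_lt (Nat.le_of_dvd hApos (Nat.gcd_dvd_right k A)) hA.2
      exact Finset.sum_fiberwise_of_maps_to h2 _
    · exact (hG0 A fun h => haA h.2).symm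
  have hT : ∀ N : ℕ, ∑ j ∈ Finset.range N, ∑ A ∈ Finset.Ico (2 ^ j) (2 ^ (j + 1)), G A =
      ∑ A ∈ Finset.range (2 ^ N), G A := by
    intro N
    induction N with
    | zero =>
      simp [hG0 0 (by simp)]
    | succ N ih =>
      rw [Finset.sum_range_succ, ih]
      exact Finset.sum_range_add_sum_Ico G (Nat.pow_le_pow_right (by norm_num) (Nat.le_succ N))
  have hL1 : Tendsto (fun N : ℕ => ∑ A ∈ Finset.range (2 ^ N), G A) atTop
      (nhds (∑' i : ℕ × ℕ, (β i.1 i.2 : ℂ) * rs i.2 i.1 D)) :=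
    hGs.tendsto_sum_nat.comp (tendsto_pow_atTop_atTop_of_one_lt (by norm_num))
  have hL2 : Tendsto (fun N : ℕ => ∑ j ∈ Finset.range N, ∑' d : ℕ, Fb β a j d D) atTop
      (nhds (∑' x : ℕ × ℕ, Fb β a x.1 x.2 D)) := by
    have h1 := hF'.prod.hasSum
    rw [← hF'.tsum_prod] at h1
    exact h1.tendsto_sum_nat
  have hL3 : (fun N : ℕ => ∑ j ∈ Finset.range N, ∑' d : ℕ, Fb β a j d D) =
      fun N : ℕ => ∑ A ∈ Finset.range (2 ^ N), G A := by
    funext N
    rw [← hT N]
    exact Finset.sum_congr rfl fun j _ => hH j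
  rw [hL3] at hL2
  exact tendsto_nhds_unique hL1 hL2

end Pool.Agent.H19.ADU
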