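import Pool.Agent.H95.AD.TargetsU

/-!
# Dyadic sums (row DYS of the board adu_modules)
-/

set_option autoImplicit false

open MeasureTheory Set Filter
open scoped Real

namespace Pool.Agent.H19.ADU

open Pool.Agent.H31.CN Pool.Agent.H95.AD

lemma rpow_le_exp {s u : ℝ} (hs : 0 < s) (hu : 0 < u) :
    u ^ s ≤ (2 * s) ^ s * Real.exp (u / 2) := by
  have h1 : u / (2 * s) ≤ Real.exp (u / (2 * s)) := by
    linarith [Real.add_one_le_exp (u / (2 * s))]
  have h2 : (u / (2 * s)) ^ s ≤ Real.exp (u / (2 * s)) ^ s :=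
    Real.rpow_le_rpow (by positivity) h1 hs.le
  rw [← Real.exp_mul] at h2
  have h3 : u / (2 * s) * s = u / 2 := by field_simp
  rw [h3] at h2
  calc u ^ s = (2 * s * (u / (2 * s))) ^ s := by
        congr 1
        field_simp
    _ = (2 * s) ^ s * (u / (2 * s)) ^ s := Real.mul_rpow (by positivity) (by positivity)
    _ ≤ _ := mul_le_mul_of_nonneg_left h2 (by positivity)

/-- The increments of `v / (1 + v)`. -/
lemma inc {r v : ℝ} (hr : 1 < r) (hv : 0 < v) :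
    v / (1 + v) ^ 2 ≤ r / (r - 1) * (r * v / (1 + r * v) - v / (1 + v)) := by
  have h1 : 0 < r - 1 := by linarith
  have h2 : r / (r - 1) * (r * v / (1 + r * v) - v / (1 + v)) =
      v / ((1 + v) * ((1 + r * v) / r)) := by
    have h3 : 0 < 1 + r * v := by positivity
    have h4 : 0 < 1 + v := by positivity
    field_simp
    ring
  rw [h2, pow_two]
  refine div_le_div_of_nonneg_left hv.le (by positivity)
    (mul_le_mul_of_nonneg_left ?_ (by positivity))
  rw [div_le_iff₀ (by linarith)]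
  nlinarith

lemma tele {s u : ℝ} (hs : 0 < s) (hu : 0 < u) :
    u ^ s * Real.exp (-u) ≤ (1 + (2 * s) ^ s) ^ 2 * ((2 : ℝ) ^ s / ((2 : ℝ) ^ s - 1)) *
      ((2 * u) ^ s / (1 + (2 * u) ^ s) - u ^ s / (1 + u ^ s)) := by
  have hr : (1 : ℝ) < (2 : ℝ) ^ s := Real.one_lt_rpow (by norm_num) hs
  have hv : 0 < u ^ s := Real.rpow_pos_of_pos hu s
  have h1 := inc hr hv
  rw [Real.mul_rpow (by norm_num) hu.le, mul_assoc]
  have h2 : (1 + u ^ s) ^ 2 * Real.exp (-u) ≤ (1 + (2 * s) ^ s) ^ 2 := by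
    have h3 : 1 + u ^ s ≤ (1 + (2 * s) ^ s) * Real.exp (u / 2) := by
      have := rpow_le_exp hs hu
      have h4 : 1 ≤ Real.exp (u / 2) := Real.one_le_exp (by positivity)
      nlinarith
    calc (1 + u ^ s) ^ 2 * Real.exp (-u)
        ≤ ((1 + (2 * s) ^ s) * Real.exp (u / 2)) ^ 2 * Real.exp (-u) :=
          mul_le_mul_of_nonneg_right (pow_le_pow_left₀ (by positivity) h3 2) (by positivity)
      _ = (1 + (2 * s) ^ s) ^ 2 * (Real.exp (u / 2) * Real.exp (u / 2) * Real.exp (-u)) := by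
          ring
      _ = (1 + (2 * s) ^ s) ^ 2 := by
          rw [← Real.exp_add, ← Real.exp_add]
          have : u / 2 + u / 2 + -u = 0 := by ring
          rw [this, Real.exp_zero, mul_one]
  calc u ^ s * Real.exp (-u) = ((1 + u ^ s) ^ 2 * Real.exp (-u)) * (u ^ s / (1 + u ^ s) ^ 2) := by
        field_simp
    _ ≤ (1 + (2 * s) ^ s) ^ 2 * (u ^ s / (1 + u ^ s) ^ 2) :=
        mul_le_mul_of_nonneg_right h2 (by positivity)
    _ ≤ _ := mul_le_mul_of_nonneg_left h1 (by positivity)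

theorem pf_DYS : T_DYS := by
  intro s hs
  have hr : (1 : ℝ) < (2 : ℝ) ^ s := Real.one_lt_rpow (by norm_num) hs
  set K : ℝ := (1 + (2 * s) ^ s) ^ 2 * ((2 : ℝ) ^ s / ((2 : ℝ) ^ s - 1)) with hK
  have hKp : 0 < K := by
    have : 0 < (2 : ℝ) ^ s - 1 := by linarith
    positivity
  refine ⟨K, hKp, ?_⟩
  intro t c ht hc
  have hpart : ∀ N : ℕ, ∑ j ∈ Finset.range N,
      ((2 : ℝ) ^ j * t) ^ s * Real.exp (-(c * ((2 : ℝ) ^ j * t))) ≤ K * c ^ (-s) := by
    intro N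
    have h1 : ∀ j ∈ Finset.range N,
        ((2 : ℝ) ^ j * t) ^ s * Real.exp (-(c * ((2 : ℝ) ^ j * t))) ≤
          K * c ^ (-s) * ((c * ((2 : ℝ) ^ (j + 1) * t)) ^ s / (1 + (c * ((2 : ℝ) ^ (j + 1) * t)) ^ s) -
            (c * ((2 : ℝ) ^ j * t)) ^ s / (1 + (c * ((2 : ℝ) ^ j * t)) ^ s)) := by
      intro j _
      have hu : 0 < c * ((2 : ℝ) ^ j * t) := by positivity
      have h2 := tele hs hu
      have h3 : 2 * (c * ((2 : ℝ) ^ j * t)) = c * ((2 : ℝ) ^ (j + 1) * t) := by ring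
      rw [h3, ← hK] at h2
      have h4 : ((2 : ℝ) ^ j * t) ^ s = c ^ (-s) * (c * ((2 : ℝ) ^ j * t)) ^ s := by
        rw [Real.mul_rpow hc.le (by positivity), ← mul_assoc, ← Real.rpow_add hc]
        simp
      rw [h4, mul_assoc, mul_comm K, mul_assoc]
      exact mul_le_mul_of_nonneg_left h2 (by positivity)
    refine (Finset.sum_le_sum h1).trans ?_
    rw [← Finset.mul_sum, Finset.sum_range_sub
      (fun j => (c * ((2 : ℝ) ^ j * t)) ^ s / (1 + (c * ((2 : ℝ) ^ j * t)) ^ s))]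
    have h5 : (c * ((2 : ℝ) ^ N * t)) ^ s / (1 + (c * ((2 : ℝ) ^ N * t)) ^ s) ≤ 1 := by
      have : 0 < (c * ((2 : ℝ) ^ N * t)) ^ s := by positivity
      rw [div_le_one (by linarith)]
      linarith
    have h6 : 0 ≤ (c * ((2 : ℝ) ^ 0 * t)) ^ s / (1 + (c * ((2 : ℝ) ^ 0 * t)) ^ s) := by positivity
    have h7 : 0 < K * c ^ (-s) := by positivity
    nlinarith
  have hnn : ∀ j : ℕ, 0 ≤ ((2 : ℝ) ^ j * t) ^ s * Real.exp (-(c * ((2 : ℝ) ^ j * t))) :=
    fun j => by positivity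
  exact ⟨summable_of_sum_range_le hnn hpart, Real.tsum_le_of_sum_range_le hnn hpart⟩

end Pool.Agent.H19.ADU
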