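import Pool.Agent.H25.AD.GAU

/-!
# The inequality of Parseval for squares (row PSV of the board adu_modules)
-/

set_option autoImplicit false

open MeasureTheory Set Filter
open scoped Real

namespace Pool.Agent.H19.ADU

open Pool.Agent.H31.CN Pool.Agent.H95.AD Pool.Agent.H25.AD

/-- Solutions with given divisors. -/
lemma card_sol (A B d : ℕ) (hA : 1 ≤ A) (hd : d ∣ A) :
    ((Finset.range (2 * A)).filter (fun B' : ℕ =>
      (2 * d : ℤ) ∣ (B' : ℤ) - B ∧ (2 * (A / d : ℕ) : ℤ) ∣ (B' : ℤ) + B)).card ≤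
        Nat.gcd d (A / d) := by
  set l := Nat.lcm d (A / d) with hl
  have hdp : 0 < d := Nat.pos_of_dvd_of_pos hd hA
  have hAd : d * (A / d) = A := Nat.mul_div_cancel' hd
  have hAdp : 0 < A / d := Nat.div_pos (Nat.le_of_dvd hA hd) hdp
  have hgl : Nat.gcd d (A / d) * l = A := by rw [hl, Nat.gcd_mul_lcm, hAd]
  have hlp : 0 < l := Nat.lcm_pos hdp hAdp
  rw [← Finset.card_range (Nat.gcd d (A / d))]
  refine Finset.card_le_card_of_injOn (fun B' => B' / (2 * l)) ?_ ?_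
  · intro x hx
    simp only [Finset.coe_filter, Finset.mem_range, mem_ofPred_eq] at hx
    simp only [Finset.coe_range, mem_Iio]
    rw [Nat.div_lt_iff_lt_mul (by omega)]
    calc x < 2 * A := hx.1
      _ = 2 * (Nat.gcd d (A / d) * l) := by rw [hgl]
      _ = Nat.gcd d (A / d) * (2 * l) := by ring
  · intro x hx y hy hxy
    simp only [Finset.coe_filter, Finset.mem_range, mem_ofPred_eq] at hx hy
    have h1 : (2 * d : ℤ) ∣ (x : ℤ) - y := by
      have := dvd_sub hx.2.1 hy.2.1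
      simpa using this
    have h2 : (2 * (A / d : ℕ) : ℤ) ∣ (x : ℤ) - y := by
      have := dvd_sub hx.2.2 hy.2.2
      simpa using this
    have h3 : (2 * l : ℤ) ∣ (x : ℤ) - y := by
      obtain ⟨u, hu⟩ := h1
      have h4 : (x : ℤ) - y = 2 * (d * u) := by rw [hu]; ring
      have h5 : ((A / d : ℕ) : ℤ) ∣ d * u := by
        rw [h4] at h2
        exact (mul_dvd_mul_iff_left (by norm_num : (2 : ℤ) ≠ 0)).1 h2
      have h6 : (l : ℤ) ∣ d * u := by
        have h7 : l ∣ (d * u : ℤ).natAbs := by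
          refine Nat.lcm_dvd ?_ ?_
          · rw [← Int.natCast_dvd]
            exact dvd_mul_right _ _
          · rw [← Int.natCast_dvd]
            exact h5
        exact Int.natCast_dvd.2 h7
      rw [h4]
      exact mul_dvd_mul_left 2 h6
    have h4 : x % (2 * l) = y % (2 * l) := by
      have h5 : (x : ℤ) ≡ y [ZMOD ((2 * l : ℕ) : ℤ)] := by
        refine (Int.modEq_iff_dvd.2 ?_).symm
        push_cast
        exact h3
      exact (Int.natCast_modEq_iff.1 h5)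
    calc x = 2 * l * (x / (2 * l)) + x % (2 * l) := (Nat.div_add_mod x (2 * l)).symm
      _ = 2 * l * (y / (2 * l)) + y % (2 * l) := by rw [h4]; simp only at hxy; rw [hxy]
      _ = y := Nat.div_add_mod y (2 * l)

/-- The number of solutions. -/
lemma card_N (A B : ℕ) (hA : 1 ≤ A) :
    ((Finset.range (2 * A)).filter (fun B' : ℕ =>
      (4 * A : ℤ) ∣ (B' : ℤ) ^ 2 - (B : ℤ) ^ 2)).card ≤
        ∑ d ∈ A.divisors, if Nat.gcd d (A / d) ∣ B then Nat.gcd d (A / d) else 0 := by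
  have hsub : (Finset.range (2 * A)).filter (fun B' : ℕ =>
      (4 * A : ℤ) ∣ (B' : ℤ) ^ 2 - (B : ℤ) ^ 2) ⊆
      (A.divisors.filter fun d => Nat.gcd d (A / d) ∣ B).biUnion fun d =>
        (Finset.range (2 * A)).filter (fun B' : ℕ =>
      (2 * d : ℤ) ∣ (B' : ℤ) - B ∧ (2 * (A / d : ℕ) : ℤ) ∣ (B' : ℤ) + B) := by
    intro B' hB'
    rw [Finset.mem_filter, Finset.mem_range] at hB'
    obtain ⟨h0, h1⟩ := hB'
    have hpar : (2 : ℤ) ∣ (B' : ℤ) - B := by
      have h2 : (2 : ℤ) ∣ (B' : ℤ) ^ 2 - (B : ℤ) ^ 2 :=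
        dvd_trans ⟨2 * A, by ring⟩ h1
      have h3 : (B' : ℤ) ^ 2 - (B : ℤ) ^ 2 = (B' - B) * (B' + B) := by ring
      rw [h3] at h2
      rcases Int.prime_two.dvd_or_dvd h2 with h | h
      · exact h
      · have : (B' : ℤ) - B = (B' + B) - 2 * B := by ring
        rw [this]
        exact dvd_sub h (dvd_mul_right _ _)
    obtain ⟨x, hx⟩ := hpar
    have hB'x : (B' : ℤ) = B + 2 * x := by linarith
    have h2 : (A : ℤ) ∣ x * (x + B) := by
      have h3 : (B' : ℤ) ^ 2 - (B : ℤ) ^ 2 = 4 * (x * (x + B)) := by rw [hB'x]; ring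
      rw [h3] at h1
      exact (mul_dvd_mul_iff_left (by norm_num : (4 : ℤ) ≠ 0)).1 h1
    set d := Int.gcd x A with hd
    have hdA : d ∣ A := by
      have := Int.gcd_dvd_right x (A : ℤ)
      exact_mod_cast this
    have hdx : (d : ℤ) ∣ x := Int.gcd_dvd_left x (A : ℤ)
    have hdp : 0 < d := Nat.pos_of_dvd_of_pos hdA hA
    have hAd : ((d * (A / d) : ℕ) : ℤ) = A := by rw [Nat.mul_div_cancel' hdA]
    have h3 : ((A / d : ℕ) : ℤ) ∣ x + B := by
      have hdp' : (d : ℤ) ≠ 0 := by exact_mod_cast hdp.ne'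
      obtain ⟨y, hy⟩ := hdx
      have h4 : ((A / d : ℕ) : ℤ) ∣ y * (x + B) := by
        have h5 : (d : ℤ) * ((A / d : ℕ) : ℤ) ∣ d * (y * (x + B)) := by
          rw [← Nat.cast_mul, hAd]
          have : (d : ℤ) * (y * (x + B)) = x * (x + B) := by
            rw [← mul_assoc, ← hy]
          rw [this]
          exact h2
        exact (mul_dvd_mul_iff_left hdp').1 h5
      have h6 : IsCoprime ((A / d : ℕ) : ℤ) y := by
        rw [Int.isCoprime_iff_gcd_eq_one]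
        have h7 : Int.gcd (x / d) ((A : ℤ) / d) = 1 := by
          have := Int.gcd_div_gcd_div_gcd (i := x) (j := (A : ℤ)) (by rw [← hd]; exact hdp)
          exact this
        have h8 : x / d = y := by
          rw [hy]
          exact Int.mul_ediv_cancel_left _ hdp'
        have h9 : (A : ℤ) / d = ((A / d : ℕ) : ℤ) := by push_cast; rfl
        rw [h8, h9] at h7
        rw [Int.gcd_comm]
        exact h7
      exact h6.dvd_of_dvd_mul_left h4
    rw [Finset.mem_biUnion]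
    refine ⟨d, ?_, ?_⟩
    · rw [Finset.mem_filter, Nat.mem_divisors]
      refine ⟨⟨hdA, by omega⟩, ?_⟩
      have h4 : ((Nat.gcd d (A / d) : ℕ) : ℤ) ∣ x :=
        dvd_trans (by exact_mod_cast Nat.gcd_dvd_left d (A / d)) hdx
      have h5 : ((Nat.gcd d (A / d) : ℕ) : ℤ) ∣ x + B :=
        dvd_trans (by exact_mod_cast Nat.gcd_dvd_right d (A / d)) h3
      have h6 : ((Nat.gcd d (A / d) : ℕ) : ℤ) ∣ (B : ℤ) := (dvd_add_right h4).1 h5
      exact_mod_cast h6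
    · rw [Finset.mem_filter, Finset.mem_range]
      refine ⟨h0, ?_, ?_⟩
      · rw [hx]
        exact mul_dvd_mul_left 2 hdx
      · have : (B' : ℤ) + B = 2 * (x + B) := by rw [hB'x]; ring
        rw [this]
        exact mul_dvd_mul_left 2 h3
  refine (Finset.card_le_card hsub).trans (Finset.card_biUnion_le.trans ?_)
  rw [Finset.sum_filter]
  refine Finset.sum_le_sum fun d hd => ?_
  split_ifs
  · exact card_sol A B d hA (Nat.dvd_of_mem_divisors hd)
  · exact le_rfl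

theorem pf_PSV : T_PSV := by
  intro A φ hA
  have hA0 : (A : ℝ) ≠ 0 := by
    have : (0 : ℝ) < A := by exact_mod_cast hA
    exact this.ne'
  -- the norm squared as a double sum
  have h1 : ∀ k : ℕ, ((‖∑ B ∈ Finset.range (2 * A),
        φ B * ee ((k : ℝ) * (B : ℝ) ^ 2 / (4 * A))‖ ^ 2 : ℝ) : ℂ) =
      ∑ B ∈ Finset.range (2 * A), ∑ B' ∈ Finset.range (2 * A),
        φ B * (starRingEnd ℂ) (φ B') * ee ((((B : ℝ) ^ 2 - (B' : ℝ) ^ 2) / (4 * A)) * k) := by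
    intro k
    rw [Complex.ofReal_pow, ← Complex.mul_conj', map_sum, Finset.sum_mul_sum]
    refine Finset.sum_congr rfl fun B _ => Finset.sum_congr rfl fun B' _ => ?_
    rw [map_mul, ee_conj]
    have h2 : ee ((((B : ℝ) ^ 2 - (B' : ℝ) ^ 2) / (4 * A)) * k) =
        ee ((k : ℝ) * (B : ℝ) ^ 2 / (4 * A)) * ee (-((k : ℝ) * (B' : ℝ) ^ 2 / (4 * A))) := by
      rw [← ee_add]
      congr 1
      ring
    rw [h2]
    ring
  have h2 : ((∑ k ∈ Finset.range (4 * A), ‖∑ B ∈ Finset.range (2 * A),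
        φ B * ee ((k : ℝ) * (B : ℝ) ^ 2 / (4 * A))‖ ^ 2 : ℝ) : ℂ) =
      ∑ B ∈ Finset.range (2 * A), ∑ B' ∈ Finset.range (2 * A),
        φ B * (starRingEnd ℂ) (φ B') * ∑ k ∈ Finset.range (4 * A),
          ee ((((B : ℝ) ^ 2 - (B' : ℝ) ^ 2) / (4 * A)) * k) := by
    rw [Complex.ofReal_sum, Finset.sum_congr rfl fun k _ => h1 k, Finset.sum_comm]
    refine Finset.sum_congr rfl fun B _ => ?_
    rw [Finset.sum_comm]
    refine Finset.sum_congr rfl fun B' _ => ?_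
    rw [Finset.mul_sum]
  have h3 : ∀ B B' : ℕ, ‖∑ k ∈ Finset.range (4 * A),
      ee ((((B : ℝ) ^ 2 - (B' : ℝ) ^ 2) / (4 * A)) * k)‖ ≤
        if (4 * A : ℤ) ∣ (B' : ℤ) ^ 2 - (B : ℤ) ^ 2 then (4 * A : ℝ) else 0 := by
    intro B B'
    have h4 : ee ((((B : ℝ) ^ 2 - (B' : ℝ) ^ 2) / (4 * A)) * (4 * A : ℕ)) = 1 := by
      have h5 : (((B : ℝ) ^ 2 - (B' : ℝ) ^ 2) / (4 * A)) * (4 * A : ℕ) =
          (((B : ℤ) ^ 2 - (B' : ℤ) ^ 2 : ℤ) : ℝ) := by
        push_cast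
        field_simp
      rw [h5]
      exact ee_int _
    have h5 := geom _ (4 * A) h4
    refine h5.trans ?_
    split_ifs with h6 h7
    · push_cast
      exact le_rfl
    · exfalso
      apply h7
      obtain ⟨n, hn⟩ := ee_eq_one _ h6
      rw [div_eq_iff (by positivity)] at hn
      refine ⟨-n, ?_⟩
      have h8 : (((B : ℤ) ^ 2 - (B' : ℤ) ^ 2 : ℤ) : ℝ) = ((n * (4 * A) : ℤ) : ℝ) := by
        push_cast
        exact hn
      have h9 : (B : ℤ) ^ 2 - (B' : ℤ) ^ 2 = n * (4 * A) := by exact_mod_cast h8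
      linarith
    · positivity
    · exact le_rfl
  set S : ℝ := ∑ k ∈ Finset.range (4 * A), ‖∑ B ∈ Finset.range (2 * A),
        φ B * ee ((k : ℝ) * (B : ℝ) ^ 2 / (4 * A))‖ ^ 2 with hS
  have hS0 : 0 ≤ S := Finset.sum_nonneg fun k _ => by positivity
  have h4 : S ≤ ∑ B ∈ Finset.range (2 * A), ∑ B' ∈ Finset.range (2 * A),
      if (4 * A : ℤ) ∣ (B' : ℤ) ^ 2 - (B : ℤ) ^ 2 then
        (4 * A : ℝ) * ((‖φ B‖ ^ 2 + ‖φ B'‖ ^ 2) / 2) else 0 := by
    have h5 : S = ‖(S : ℂ)‖ := by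
      rw [Complex.norm_real, Real.norm_of_nonneg hS0]
    rw [h5, h2]
    refine (norm_sum_le _ _).trans (Finset.sum_le_sum fun B _ => ?_)
    refine (norm_sum_le _ _).trans (Finset.sum_le_sum fun B' _ => ?_)
    rw [norm_mul, norm_mul, RCLike.norm_conj]
    have h6 := h3 B B'
    split_ifs at h6 ⊢ with h7
    · calc ‖φ B‖ * ‖φ B'‖ * _ ≤ ‖φ B‖ * ‖φ B'‖ * (4 * A) :=
            mul_le_mul_of_nonneg_left h6 (by positivity)
        _ ≤ (4 * A : ℝ) * ((‖φ B‖ ^ 2 + ‖φ B'‖ ^ 2) / 2) := by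
            have : ‖φ B‖ * ‖φ B'‖ ≤ (‖φ B‖ ^ 2 + ‖φ B'‖ ^ 2) / 2 := by
              nlinarith [sq_nonneg (‖φ B‖ - ‖φ B'‖)]
            have h8 : (0 : ℝ) ≤ 4 * A := by positivity
            nlinarith
    · have h8 : ‖∑ k ∈ Finset.range (4 * A),
          ee ((((B : ℝ) ^ 2 - (B' : ℝ) ^ 2) / (4 * A)) * k)‖ = 0 :=
        le_antisymm h6 (norm_nonneg _)
      rw [h8, mul_zero]
  -- symmetry
  have h5 : ∑ B ∈ Finset.range (2 * A), ∑ B' ∈ Finset.range (2 * A),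
      (if (4 * A : ℤ) ∣ (B' : ℤ) ^ 2 - (B : ℤ) ^ 2 then
        (4 * A : ℝ) * ((‖φ B‖ ^ 2 + ‖φ B'‖ ^ 2) / 2) else 0) =
      4 * A * ∑ B ∈ Finset.range (2 * A), ‖φ B‖ ^ 2 *
        (((Finset.range (2 * A)).filter (fun B' : ℕ =>
          (4 * A : ℤ) ∣ (B' : ℤ) ^ 2 - (B : ℤ) ^ 2)).card : ℝ) := by
    have e1 : ∀ B B' : ℕ, (if (4 * A : ℤ) ∣ (B' : ℤ) ^ 2 - (B : ℤ) ^ 2 then
        (4 * A : ℝ) * ((‖φ B‖ ^ 2 + ‖φ B'‖ ^ 2) / 2) else 0) =
      2 * A * (if (4 * A : ℤ) ∣ (B' : ℤ) ^ 2 - (B : ℤ) ^ 2 then ‖φ B‖ ^ 2 else 0) +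
      2 * A * (if (4 * A : ℤ) ∣ (B : ℤ) ^ 2 - (B' : ℤ) ^ 2 then ‖φ B'‖ ^ 2 else 0) := by
      intro B B'
      have e2 : (4 * A : ℤ) ∣ (B : ℤ) ^ 2 - (B' : ℤ) ^ 2 ↔
          (4 * A : ℤ) ∣ (B' : ℤ) ^ 2 - (B : ℤ) ^ 2 := dvd_sub_comm
      simp only [e2]
      split_ifs <;> ring
    simp only [e1, Finset.sum_add_distrib]
    rw [Finset.sum_comm (f := fun B B' : ℕ => 2 * (A : ℝ) *
      (if (4 * A : ℤ) ∣ (B : ℤ) ^ 2 - (B' : ℤ) ^ 2 then ‖φ B'‖ ^ 2 else 0))]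
    rw [← two_mul, Finset.mul_sum, Finset.mul_sum]
    refine Finset.sum_congr rfl fun B _ => ?_
    rw [← Finset.mul_sum, ← Finset.sum_filter, Finset.sum_const, nsmul_eq_mul]
    ring
  refine h4.trans (h5.le.trans (mul_le_mul_of_nonneg_left ?_ (by positivity)))
  calc ∑ B ∈ Finset.range (2 * A), ‖φ B‖ ^ 2 *
        (((Finset.range (2 * A)).filter (fun B' : ℕ =>
          (4 * A : ℤ) ∣ (B' : ℤ) ^ 2 - (B : ℤ) ^ 2)).card : ℝ)
      ≤ ∑ B ∈ Finset.range (2 * A), ‖φ B‖ ^ 2 *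
        ∑ d ∈ A.divisors, (if Nat.gcd d (A / d) ∣ B then (Nat.gcd d (A / d) : ℝ) else 0) := by
        refine Finset.sum_le_sum fun B _ => mul_le_mul_of_nonneg_left ?_ (by positivity)
        have := card_N A B hA
        have h6 : (((Finset.range (2 * A)).filter (fun B' : ℕ =>
          (4 * A : ℤ) ∣ (B' : ℤ) ^ 2 - (B : ℤ) ^ 2)).card : ℝ) ≤
          ((∑ d ∈ A.divisors, if Nat.gcd d (A / d) ∣ B then Nat.gcd d (A / d) else 0 : ℕ) : ℝ) := by
          exact_mod_cast this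
        refine h6.trans (le_of_eq ?_)
        push_cast
        rfl
    _ = ∑ d ∈ A.divisors, (Nat.gcd d (A / d) : ℝ) *
        ∑ B ∈ (Finset.range (2 * A)).filter (fun B => Nat.gcd d (A / d) ∣ B), ‖φ B‖ ^ 2 := by
        simp only [Finset.mul_sum, Finset.sum_filter]
        rw [Finset.sum_comm]
        refine Finset.sum_congr rfl fun d _ => Finset.sum_congr rfl fun B _ => ?_
        split_ifs <;> ring

end Pool.Agent.H19.ADU
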